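import Pool.Agent.Y142.SU.Stm

set_option autoImplicit false

/-!
Project Y142-SV (owner helper142): Tate classes on powers of orthogonal and symplectic motives with real
multiplication at 100 percent of the primes `ℓ`. Statements of the self-contained sub-tasks.
-/

open Matrix Polynomial Filter Topology NumberField IsDedekindDomain
open Pool.Agent.Y142.ZO Pool.Agent.Y142.ZI
open Pool.Agent.Y142.ZS (Sim Generic)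
open Pool.Agent.Y142.ZD (DistPow)
open Pool.Agent.Y142.SU (FromHerm)

namespace Pool.Agent.Y142.SV

section alg
variable {F : Type} [Field F] {N : ℕ}

/-- the Lie algebra of the isometries of the form `J` which commute with the coefficients `𝒞` -/
def LieV (J : Matrix (Fin N) (Fin N) F) (𝒞 : Subalgebra F (Matrix (Fin N) (Fin N) F))
    (X : Matrix (Fin N) (Fin N) F) : Prop :=
  (∀ A ∈ 𝒞, X * A = A * X) ∧ Xᵀ * J + J * X = 0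

/-- a form for which the coefficients are selfadjoint -/
def Selfadj (J : Matrix (Fin N) (Fin N) F) (𝒞 : Subalgebra F (Matrix (Fin N) (Fin N) F)) : Prop :=
  (Jᵀ = J ∨ Jᵀ = -J) ∧ J.det ≠ 0 ∧ (∀ A ∈ 𝒞, ∀ B ∈ 𝒞, A * B = B * A) ∧
  ∀ A ∈ 𝒞, Aᵀ * J = J * A

end alg

/-- task ROOTV -/
def S_ROOTV : Prop := ∀ (F : Type) [Field F] [CharZero F] (N : ℕ)
  (J g : Matrix (Fin N) (Fin N) F) (c : F) (𝔤 : Submodule F (Matrix (Fin N) (Fin N) F))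
  (𝒞 : Subalgebra F (Matrix (Fin N) (Fin N) F)),
  Selfadj J 𝒞 → c ≠ 0 → Sim J g c → g.charpoly.Splits → g.charpoly.Separable →
  (∀ x y z w : F, g.charpoly.IsRoot x → g.charpoly.IsRoot y → g.charpoly.IsRoot z →
    g.charpoly.IsRoot w → x ≠ y → x * w = z * y → (z = x ∧ w = y) ∨ (z * y = c ∧ w * x = c)) →
  (∀ Z ∈ 𝔤, ∃ μ : F, Zᵀ * J + J * Z = μ • J) → (∀ X ∈ 𝔤, ∀ Y ∈ 𝔤, X * Y - Y * X ∈ 𝔤) →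
  (∀ Z ∈ 𝔤, g * Z * g⁻¹ ∈ 𝔤) →
  (∀ A ∈ 𝒞, A * g = g * A) → (∀ A ∈ 𝒞, ∀ Z ∈ 𝔤, A * Z = Z * A) →
  (∀ X, (∀ A ∈ 𝒞, X * A = A * X) →
    X ∈ Algebra.adjoin F (𝔤 : Set (Matrix (Fin N) (Fin N) F))) →
  ∀ X, LieV J 𝒞 X → X ∈ 𝔤

/-- task LIEV: descent from the algebraic closure -/
def S_LIEV : Prop := ∀ (ℓ : ℕ) [Fact ℓ.Prime] (N : ℕ)
  (J g : Matrix (Fin N) (Fin N) ℚ_[ℓ]) (c : ℚ_[ℓ]) (𝔤 : Submodule ℚ_[ℓ] (Matrix (Fin N) (Fin N) ℚ_[ℓ]))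
  (𝒞 : Subalgebra ℚ_[ℓ] (Matrix (Fin N) (Fin N) ℚ_[ℓ])),
  Selfadj J 𝒞 → c ≠ 0 → Sim J g c → g.charpoly.Separable → Generic g.charpoly c →
  (∀ Z ∈ 𝔤, ∃ μ : ℚ_[ℓ], Zᵀ * J + J * Z = μ • J) → (∀ X ∈ 𝔤, ∀ Y ∈ 𝔤, X * Y - Y * X ∈ 𝔤) →
  (∀ Z ∈ 𝔤, g * Z * g⁻¹ ∈ 𝔤) →
  (∀ A ∈ 𝒞, A * g = g * A) → (∀ A ∈ 𝒞, ∀ Z ∈ 𝔤, A * Z = Z * A) →
  (∀ X, (∀ A ∈ 𝒞, X * A = A * X) →
    X ∈ Algebra.adjoin ℚ_[ℓ] (𝔤 : Set (Matrix (Fin N) (Fin N) ℚ_[ℓ]))) →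
  ∀ X, LieV J 𝒞 X → X ∈ 𝔤

/-- task FFTV: the first fundamental theorem (degree `k < n` if `J` is symmetric) -/
def S_FFTV : Prop := ∀ (F : Type) [Field F] [CharZero F] [IsAlgClosed F] (N n : ℕ)
  (J : Matrix (Fin N) (Fin N) F) (𝒞 : Subalgebra F (Matrix (Fin N) (Fin N) F)), Selfadj J 𝒞 →
  (∀ A ∈ 𝒞, IsNilpotent A → A = 0) → (∀ e ∈ 𝒞, e * e = e → e ≠ 0 → n ≤ e.rank) →
  ∀ (k : ℕ) (φ : MultilinearMap F (fun _ : Fin k => Fin N → F) F), (k < n ∨ Jᵀ = -J) →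
    (∀ X, LieV J 𝒞 X → ∀ v : Fin k → Fin N → F,
      ∑ j, φ (Function.update v j (X *ᵥ v j)) = 0) →
    (fun v => φ v) ∈ FromHerm J 𝒞 k

/-- task FFTDV: descent of the first fundamental theorem -/
def S_FFTDV : Prop := ∀ (ℓ : ℕ) [Fact ℓ.Prime] (N n : ℕ)
  (J : Matrix (Fin N) (Fin N) ℚ_[ℓ]) (𝒞 : Subalgebra ℚ_[ℓ] (Matrix (Fin N) (Fin N) ℚ_[ℓ])),
  Selfadj J 𝒞 → (∀ A ∈ 𝒞, IsNilpotent A → A = 0) →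
  (∀ A : 𝒞, (A : Matrix (Fin N) (Fin N) ℚ_[ℓ]).trace =
    (n : ℚ_[ℓ]) * LinearMap.trace ℚ_[ℓ] 𝒞 (LinearMap.mulLeft ℚ_[ℓ] A)) →
  ∀ (k : ℕ) (φ : MultilinearMap ℚ_[ℓ] (fun _ : Fin k => Fin N → ℚ_[ℓ]) ℚ_[ℓ]),
    (k < n ∨ Jᵀ = -J) →
    (∀ X, LieV J 𝒞 X → ∀ v : Fin k → Fin N → ℚ_[ℓ],
      ∑ j, φ (Function.update v j (X *ᵥ v j)) = 0) →
    (fun v => φ v) ∈ FromHerm J 𝒞 k

/-- task PERFV: the Lie algebra is perfect -/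
def S_PERFV : Prop := ∀ (F : Type) [Field F] [CharZero F] (N : ℕ)
  (J : Matrix (Fin N) (Fin N) F) (𝒞 : Subalgebra F (Matrix (Fin N) (Fin N) F)), Selfadj J 𝒞 →
  (∀ A ∈ 𝒞, IsNilpotent A → A = 0) →
  (∀ X, (∀ A ∈ 𝒞, X * A = A * X) → X ∈ Algebra.adjoin F {Y | LieV J 𝒞 Y}) →
  ∀ X, LieV J 𝒞 X →
  X ∈ Submodule.span F {Z : Matrix (Fin N) (Fin N) F | ∃ Y Y' : Matrix (Fin N) (Fin N) F,
    LieV J 𝒞 Y ∧ LieV J 𝒞 Y' ∧ Z = Y * Y' - Y' * Y}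

/-- task INVV: forms invariant under the isometries in an open subgroup -/
def S_INVV : Prop := ∀ (ℓ : ℕ) [Fact ℓ.Prime] (N : ℕ) (G : Type) [Group G] [TopologicalSpace G]
  [IsTopologicalGroup G] [CompactSpace G]
  (ρ : G →* Matrix (Fin N) (Fin N) ℚ_[ℓ]), Continuous ρ →
  ∀ (J : Matrix (Fin N) (Fin N) ℚ_[ℓ]) (𝒞 : Subalgebra ℚ_[ℓ] (Matrix (Fin N) (Fin N) ℚ_[ℓ])),
  Selfadj J 𝒞 → (∀ A ∈ 𝒞, IsNilpotent A → A = 0) →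
  (∀ X, (∀ A ∈ 𝒞, X * A = A * X) → X ∈ Algebra.adjoin ℚ_[ℓ] {Y | LieV J 𝒞 Y}) →
  (∀ g, ∃ c : ℚ_[ℓ], Sim J (ρ g) c) →
  (∀ X, LieV J 𝒞 X → IsTangent ℓ ρ X) →
  ∀ (k : ℕ) (φ : MultilinearMap ℚ_[ℓ] (fun _ : Fin k => Fin N → ℚ_[ℓ]) ℚ_[ℓ]) (U : Subgroup G),
    IsOpen (U : Set G) →
    (∀ σ ∈ U, (ρ σ)ᵀ * J * ρ σ = J → ∀ v, φ (fun j => ρ σ *ᵥ v j) = φ v) →
    ∀ X, LieV J 𝒞 X → ∀ v : Fin k → Fin N → ℚ_[ℓ],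
      ∑ j, φ (Function.update v j (X *ᵥ v j)) = 0

end Pool.Agent.Y142.SV
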