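import Pool.Agent.Y142.SU.Top
import Pool.Agent.Y142.SV.Stm

/-!
# Project SV: assembly
-/

set_option autoImplicit false
set_option linter.style.haveILetI false
set_option linter.unusedSectionVars false

open Matrix Polynomial Filter Topology NumberField IsDedekindDomain
open Pool.Agent.Y142.ZO Pool.Agent.Y142.ZI
open Pool.Agent.Y142.ZS (NiceP GenP restrict0 nice_of_p push_C Sim Generic S_TANS)
open Pool.Agent.Y142.ZD (DistPow dist_of_nice S_ABS S_BADD S_SUB)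
open Pool.Agent.Y142.SS
open Pool.Agent.Y142.SI
open Pool.Agent.Y142.SU (S_DCT S_COEF FromHerm comm_tangent FormSys generic_of_gen)

namespace Pool.Agent.Y142.SV

section loc
variable {ℓ : ℕ} [Fact ℓ.Prime] {N : ℕ} {Γ : Type} [Group Γ] [TopologicalSpace Γ]
  [IsTopologicalGroup Γ] [CompactSpace Γ]

theorem selfadj_of {E : IntermediateField ℚ QQ} {J : Matrix (Fin N) (Fin N) ℚ_[ℓ]}
    (hJ : Jᵀ = J ∨ Jᵀ = -J) (hdet : J.det ≠ 0) (ε : E →+* Matrix (Fin N) (Fin N) ℚ_[ℓ])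
    (hcomm : ∀ A ∈ Algebra.adjoin ℚ_[ℓ] (Set.range ε), ∀ B ∈ Algebra.adjoin ℚ_[ℓ] (Set.range ε),
      A * B = B * A)
    (hεJ : ∀ a, (ε a)ᵀ * J = J * ε a) :
    Selfadj J (Algebra.adjoin ℚ_[ℓ] (Set.range ε)) := by
  refine ⟨hJ, hdet, hcomm, ?_⟩
  intro A hA
  induction hA using Algebra.adjoin_induction with
  | mem x hx =>
    obtain ⟨a, rfl⟩ := hx
    exact hεJ a
  | algebraMap r =>
    rw [Algebra.algebraMap_eq_smul_one, transpose_smul, transpose_one, smul_mul_assoc, one_mul,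
      mul_smul_comm, mul_one]
  | add x y _ _ hx hy => rw [transpose_add, add_mul, hx, hy, mul_add]
  | mul x y hx' hy' hx hy =>
    rw [transpose_mul, mul_assoc, hx, ← mul_assoc, hy, mul_assoc, hcomm y hy' x hx']

/-- the conclusions at one prime -/
theorem local_SV (hTAN : S_TAN) (hTANS : S_TANS) (hDCT : S_DCT) (hLIEV : S_LIEV)
    (hFFTDV : S_FFTDV) (hINVV : S_INVV) (hCOEF : S_COEF)
    (ρ : Γ →* Matrix (Fin N) (Fin N) ℚ_[ℓ]) (hρ : Continuous ρ)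
    (E : IntermediateField ℚ QQ) (hfin : FiniteDimensional ℚ E) (n : ℕ) (hn : 0 < n)
    (ε : E →+* Matrix (Fin N) (Fin N) ℚ_[ℓ]) (hε : ∀ (a : E) (γ : Γ), ε a * ρ γ = ρ γ * ε a)
    (htr : ∀ a : E, (ε a).trace = (n : ℚ_[ℓ]) * ((Algebra.trace ℚ E a : ℚ) : ℚ_[ℓ]))
    (J : Matrix (Fin N) (Fin N) ℚ_[ℓ]) (hJ : Jᵀ = J ∨ Jᵀ = -J) (hdet : J.det ≠ 0)
    (hsim : ∀ g, ∃ c : ℚ_[ℓ], Sim J (ρ g) c)
    (hεJ : ∀ a, (ε a)ᵀ * J = J * ε a) (hgood : GoodEnd ℓ E ρ ε)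
    (τ : Γ) (c : ℚ_[ℓ]) (hc : c ≠ 0) (hτ : Sim J (ρ τ) c) (hsep : (ρ τ).charpoly.Separable)
    (hgen : Generic (ρ τ).charpoly c) :
    (∀ X, LieV J (Algebra.adjoin ℚ_[ℓ] (Set.range ε)) X → IsTangent ℓ ρ X) ∧
    ∀ (k : ℕ) (φ : MultilinearMap ℚ_[ℓ] (fun _ : Fin k => Fin N → ℚ_[ℓ]) ℚ_[ℓ]) (U : Subgroup Γ),
      (k < n ∨ Jᵀ = -J) → IsOpen (U : Set Γ) →
      (∀ σ ∈ U, (ρ σ)ᵀ * J * ρ σ = J → ∀ v, φ (fun j => ρ σ *ᵥ v j) = φ v) →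
      (fun v => φ v) ∈ FromHerm J (Algebra.adjoin ℚ_[ℓ] (Set.range ε)) k := by
  obtain ⟨hcomm, hred, hspan, htrace⟩ := hCOEF ℓ N n E hfin hn ε htr
  have hH := selfadj_of hJ hdet ε hcomm hεJ
  obtain ⟨𝔤, h𝔤, hbr, hconj, -⟩ := hTAN ℓ N Γ ρ
  set 𝒞 := Algebra.adjoin ℚ_[ℓ] (Set.range ε) with h𝒞
  have hCρ : ∀ A ∈ 𝒞, ∀ γ, A * ρ γ = ρ γ * A := by
    intro A hA γ
    induction hA using Algebra.adjoin_induction with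
    | mem x hx =>
      obtain ⟨a, rfl⟩ := hx
      exact hε a γ
    | algebraMap r => exact Algebra.commutes r _
    | add x y _ _ hx hy => rw [add_mul, mul_add, hx, hy]
    | mul x y _ _ hx hy => rw [mul_assoc, hy, ← mul_assoc, hx, mul_assoc]
  have hdct := hDCT ℓ N Γ ρ hρ 𝒞 fun U hU =>
    ⟨fun X hX => Algebra.span_le_adjoin _ _ ((hgood U hU).1 X hX), (hgood U hU).2⟩
  have hset : {Y | IsTangent ℓ ρ Y} = (𝔤 : Set (Matrix (Fin N) (Fin N) ℚ_[ℓ])) := by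
    ext Y
    exact (h𝔤 Y).symm
  rw [hset] at hdct
  have hinv : (ρ τ)⁻¹ = ρ τ⁻¹ := by
    apply Matrix.inv_eq_left_inv
    rw [← map_mul, inv_mul_cancel, map_one]
  have hsk : ∀ Z ∈ 𝔤, ∃ μ : ℚ_[ℓ], Zᵀ * J + J * Z = μ • J := fun Z hZ =>
    hTANS ℓ N Γ ρ J hdet hsim Z ((h𝔤 Z).1 hZ)
  have hcm : ∀ A ∈ 𝒞, ∀ Z ∈ 𝔤, A * Z = Z * A := fun A hA Z hZ =>
    comm_tangent (hCρ A hA) ((h𝔤 Z).1 hZ)
  have hfull : ∀ X, LieV J 𝒞 X → IsTangent ℓ ρ X := by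
    intro X hX
    rw [← h𝔤]
    refine hLIEV ℓ N J (ρ τ) c 𝔤 𝒞 hH hc hτ hsep hgen hsk hbr ?_ (fun A hA => hCρ A hA τ) hcm hdct
      X hX
    intro Z hZ
    rw [hinv]
    exact hconj τ Z hZ
  -- the algebra generated by the skew elements
  have hle : Algebra.adjoin ℚ_[ℓ] (𝔤 : Set (Matrix (Fin N) (Fin N) ℚ_[ℓ])) ≤
      Algebra.adjoin ℚ_[ℓ] {Y | LieV J 𝒞 Y} := by
    refine Algebra.adjoin_le ?_
    intro Z hZ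
    obtain ⟨μ, hμ⟩ := hsk Z hZ
    have h1 : LieV J 𝒞 (Z - (μ / 2) • (1 : Matrix (Fin N) (Fin N) ℚ_[ℓ])) := by
      refine ⟨fun A hA => ?_, ?_⟩
      · rw [sub_mul, mul_sub, hcm A hA Z hZ, smul_mul_assoc, mul_smul_comm, one_mul, mul_one]
      · rw [transpose_sub, transpose_smul, transpose_one, sub_mul, mul_sub, smul_mul_assoc,
          mul_smul_comm, one_mul, mul_one]
        have h2 : Zᵀ * J - (μ / 2) • J + (J * Z - (μ / 2) • J) =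
            (Zᵀ * J + J * Z) - ((μ / 2) • J + (μ / 2) • J) := by abel
        rw [h2, hμ, ← add_smul, add_halves, sub_self]
    have h3 : Z = (Z - (μ / 2) • (1 : Matrix (Fin N) (Fin N) ℚ_[ℓ])) +
        algebraMap ℚ_[ℓ] (Matrix (Fin N) (Fin N) ℚ_[ℓ]) (μ / 2) := by
      rw [Algebra.algebraMap_eq_smul_one, sub_add_cancel]
    rw [SetLike.mem_coe, h3]
    exact Subalgebra.add_mem _ (Algebra.subset_adjoin h1) (Subalgebra.algebraMap_mem _ _)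
  refine ⟨hfull, fun k φ U hk hU hφ => ?_⟩
  exact hFFTDV ℓ N n J 𝒞 hH hred htrace k φ hk
    (hINVV ℓ N Γ ρ hρ J 𝒞 hH hred (fun X hX => hle (hdct X hX)) hsim hfull k φ U hU hφ)

end loc

section
variable {K : Type} [Field K] [NumberField K] {N : ℕ} {S : Set (HeightOneSpectrum (𝓞 K))}
  {P : HeightOneSpectrum (𝓞 K) → ℚ[X]} {q : HeightOneSpectrum (𝓞 K) → ℚ}
  {Γ : Type} [Group Γ] [TopologicalSpace Γ] [IsTopologicalGroup Γ] [CompactSpace Γ]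

/-- the conclusions at one prime -/
def GoodSV (ℓ : ℕ) [Fact ℓ.Prime] (n : ℕ) (E : IntermediateField ℚ QQ)
    (ρ : Γ →* Matrix (Fin N) (Fin N) ℚ_[ℓ]) (ε : E →+* Matrix (Fin N) (Fin N) ℚ_[ℓ])
    (J : Matrix (Fin N) (Fin N) ℚ_[ℓ]) : Prop :=
  (∀ X, LieV J (Algebra.adjoin ℚ_[ℓ] (Set.range ε)) X → IsTangent ℓ ρ X) ∧
    ∀ (k : ℕ) (φ : MultilinearMap ℚ_[ℓ] (fun _ : Fin k => Fin N → ℚ_[ℓ]) ℚ_[ℓ]) (U : Subgroup Γ),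
      (k < n ∨ Jᵀ = -J) → IsOpen (U : Set Γ) →
      (∀ σ ∈ U, (ρ σ)ᵀ * J * ρ σ = J → ∀ v, φ (fun j => ρ σ *ᵥ v j) = φ v) →
      (fun v => φ v) ∈ FromHerm J (Algebra.adjoin ℚ_[ℓ] (Set.range ε)) k

theorem densitySV (hTAN : S_TAN) (hTANS : S_TANS) (hDCT : S_DCT) (hLIEV : S_LIEV)
    (hFFTDV : S_FFTDV) (hINVV : S_INVV) (hCOEF : S_COEF)
    (hLOC : S_LOC) (hLOGR : S_LOGR) (hKRS : S_KRS) (hCHARA : S_CHARA)
    (hMULTI : S_MULTI) (hFROB : S_FROB) (hINT : S_INT) (hDENS2 : S_DENS2) (hBADD : S_BADD)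
    (hSUB : S_SUB) (hSUBF : S_SUBF) (hEF : S_EF) (hTRD : S_TRD) (hENDE : S_ENDE)
    (hS : S.Finite) (s : GK K →* Γ) (hs : Continuous s)
    (ρ : ∀ (ℓ : ℕ) [Fact ℓ.Prime], Γ →* Matrix (Fin N) (Fin N) ℚ_[ℓ])
    (hsys : ∀ (ℓ : ℕ) [Fact ℓ.Prime], GenSys K s N ℓ (ρ ℓ) S P)
    (E : IntermediateField ℚ QQ) (hfin : FiniteDimensional ℚ E) (hE : Normal ℚ E)
    (n : ℕ) (hn : 0 < n) (hNn : N = n * Module.finrank ℚ E)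
    (ε : ∀ (ℓ : ℕ) [Fact ℓ.Prime], E →+* Matrix (Fin N) (Fin N) ℚ_[ℓ])
    (hε : ∀ (ℓ : ℕ) [Fact ℓ.Prime] (a : E) (γ : Γ), ε ℓ a * ρ ℓ γ = ρ ℓ γ * ε ℓ a)
    (htr : ∀ (ℓ : ℕ) [Fact ℓ.Prime] (a : E),
      (ε ℓ a).trace = (n : ℚ_[ℓ]) * ((Algebra.trace ℚ E a : ℚ) : ℚ_[ℓ]))
    (J : ∀ (ℓ : ℕ) [Fact ℓ.Prime], Matrix (Fin N) (Fin N) ℚ_[ℓ])
    (hJ : ∀ (ℓ : ℕ) [Fact ℓ.Prime], FormSys K s N ℓ (ρ ℓ) (J ℓ) S q)
    (hεJ : ∀ (ℓ : ℕ) [Fact ℓ.Prime] (a : E), (ε ℓ a)ᵀ * J ℓ = J ℓ * ε ℓ a)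
    {w₀ : HeightOneSpectrum (𝓞 K)} (hw₀ : GenP S P q w₀)
    {m : ℕ} (u : Fin (m + 1) → HeightOneSpectrum (𝓞 K)) (hu : ∀ i, NiceP S P (u i))
    (hI : ∀ (g : GK ℚ) (d : ℕ), 0 < d → d < N → ¬ n * ordE E g ∣ d →
      ∃ v, NiceP S P v ∧ ∃ w ∈ NoSet d (P v), w⁻¹ * g ∈ Subgroup.closure (⋃ i, Fix (P (u i))))
    (hII : ∀ g : GK ℚ, ∃ v, NiceP S P v ∧ ∃ w ∈ Cl2 E n (P v),
      w⁻¹ * g ∈ Subgroup.closure (⋃ i, Fix (P (u i)))) :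
    ZI.DensityZero {ℓ | ∃ _ : Fact ℓ.Prime, ¬ GoodSV ℓ n E (ρ ℓ) (ε ℓ) (J ℓ)} := by
  classical
  have he : 0 < Module.finrank ℚ E := Module.finrank_pos
  have hN : 0 < N := by
    rw [hNn]
    exact Nat.mul_pos hn he
  have hsys' : ∀ (ℓ : ℕ) [Fact ℓ.Prime], Sys K N ℓ ((ρ ℓ).comp s) S P := fun ℓ _ =>
    ⟨(hsys ℓ).1.comp hs, fun v hv hvℓ σ hσ => (hsys ℓ).2 v hv hvℓ σ hσ⟩
  have hbad0 : ZI.DensityZero {ℓ : ℕ | ℓ.Prime ∧ ℓ ≤ Ideal.absNorm w₀.asIdeal} := by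
    refine densityPhi hLOC hLOGR hKRS hCHARA hMULTI hFROB hINT hDENS2 hN hS
      (fun ℓ _ => (ρ ℓ).comp s) hsys' u hu (Gd := Set.univ) (fun _ _ => trivial)
      (Φ := fun _ => Set.univ)
      ⟨fun _ _ _ _ => trivial, fun _ _ _ _ _ _ => trivial, fun _ _ _ _ _ => trivial⟩
      (fun g => ⟨u 0, hu 0, g, trivial, by rw [inv_mul_cancel]; exact Subgroup.one_mem _⟩)
      _ (fun ℓ hℓ => hℓ.1)
      (fun v _ => ⟨Ideal.absNorm w₀.asIdeal, fun ℓ hℓ h => absurd hℓ.2 (by omega)⟩)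
  have hmain := densitySI hLOC hLOGR hKRS hCHARA hMULTI hFROB hINT hDENS2 hBADD hSUB hSUBF hEF
    hTRD hENDE hS s hs ρ hsys E hfin hE n hn hNn ε hε htr u hu hI hII
  refine ZI.DensityZero.mono (hbad0.union hmain) ?_
  rintro ℓ ⟨hp, hno⟩
  by_contra hnot
  rw [Set.mem_union, not_or] at hnot
  obtain ⟨h0, h1⟩ := hnot
  have hℓ : Ideal.absNorm w₀.asIdeal < ℓ := by
    by_contra h
    exact h0 ⟨hp.out, by omega⟩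
  have hgood : GoodEnd ℓ E (ρ ℓ) (ε ℓ) := by
    by_contra h
    exact h1 ⟨hp, h⟩
  have hvℓ := not_mem_of_lt w₀ hp.out hℓ
  obtain ⟨σ, hσ⟩ := Pool.Agent.W401.Frob.exists_frob w₀
  have hchar := (hsys ℓ).2 w₀ hw₀.1 hvℓ σ hσ
  refine hno (local_SV hTAN hTANS hDCT hLIEV hFFTDV hINVV hCOEF (ρ ℓ) (hsys ℓ).1 E hfin n hn (ε ℓ)
    (hε ℓ) (htr ℓ) (J ℓ) (hJ ℓ).1 (hJ ℓ).2.1 (hJ ℓ).2.2.1 (hεJ ℓ) hgood (s σ⁻¹)
    (q w₀ : ℚ_[ℓ]) (by exact_mod_cast hw₀.2.2.2.1) ((hJ ℓ).2.2.2 w₀ hw₀.1 hvℓ σ hσ)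
    (by rw [hchar]; exact hw₀.2.2.1.map) (by rw [hchar]; exact generic_of_gen hw₀ ℓ))

end

section conv
variable {ℓ : ℕ} [Fact ℓ.Prime] {N : ℕ}

theorem lieV_of {J : Matrix (Fin N) (Fin N) ℚ_[ℓ]} {E : Type} [Field E]
    (ε : E →+* Matrix (Fin N) (Fin N) ℚ_[ℓ])
    (hspan : ∀ A ∈ Algebra.adjoin ℚ_[ℓ] (Set.range ε), A ∈ Submodule.span ℚ_[ℓ] (Set.range ε))
    {X : Matrix (Fin N) (Fin N) ℚ_[ℓ]} (h1 : ∀ a, X * ε a = ε a * X)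
    (h2 : Xᵀ * J + J * X = 0) :
    LieV J (Algebra.adjoin ℚ_[ℓ] (Set.range ε)) X := by
  refine ⟨fun A hA => ?_, h2⟩
  have hA' := hspan A hA
  clear hA
  induction hA' using Submodule.span_induction with
  | mem x hx =>
    obtain ⟨a, rfl⟩ := hx
    exact h1 a
  | zero => rw [mul_zero, zero_mul]
  | add x y _ _ hx hy => rw [mul_add, add_mul, hx, hy]
  | smul c x _ hx => rw [mul_smul_comm, smul_mul_assoc, hx]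

end conv

end Pool.Agent.Y142.SV
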